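import Pool.Agent.LeadSN.Stm

/-!
# Piece PH of project SN: bounds of `ph`
-/

set_option autoImplicit false

open scoped BigOperators
open Pool.Agent.Y282.RB

namespace Pool.Agent.W2helper75.SN

open Pool.Agent.LeadSN

theorem exp_sub {s : ℝ} (hs : 0 ≤ s) : Real.exp s - 1 - s ≤ s ^ 2 / 2 * Real.exp s := by
  have hmono : MonotoneOn (fun s : ℝ => s ^ 2 / 2 + (1 + s) * Real.exp (-s) - 1) (Set.Ici 0) := by
    have hd : ∀ x : ℝ, HasDerivAt (fun s : ℝ => s ^ 2 / 2 + (1 + s) * Real.exp (-s) - 1)
        (x * (1 - Real.exp (-x))) x := by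
      intro x
      have h1 : HasDerivAt (fun s : ℝ => s ^ 2 / 2) (2 * x / 2) x := by
        simpa using (hasDerivAt_pow 2 x).div_const 2
      have h2 : HasDerivAt (fun s : ℝ => 1 + s) 1 x := (hasDerivAt_id x).const_add 1
      have h3 : HasDerivAt (fun s : ℝ => Real.exp (-s)) (Real.exp (-x) * -1) x :=
        (hasDerivAt_neg x).exp
      have h4 := (h1.add (h2.mul h3)).sub_const 1
      refine HasDerivAt.congr_deriv (f := fun s : ℝ => s ^ 2 / 2 + (1 + s) * Real.exp (-s) - 1)
        h4 ?_
      ring
    apply monotoneOn_of_deriv_nonneg (convex_Ici 0)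
    · exact fun x _ => (hd x).continuousAt.continuousWithinAt
    · exact fun x _ => (hd x).differentiableAt.differentiableWithinAt
    · intro x hx
      rw [interior_Ici] at hx
      rw [(hd x).deriv]
      have hx0 : 0 < x := hx
      have : Real.exp (-x) ≤ 1 := Real.exp_le_one_iff.2 (by linarith)
      exact mul_nonneg hx0.le (by linarith)
  have h := hmono (Set.mem_Ici.2 le_rfl) (Set.mem_Ici.2 hs) hs
  simp only [ne_eq, OfNat.ofNat_ne_zero, not_false_eq_true, zero_pow, zero_div, add_zero, neg_zero,
    Real.exp_zero, mul_one, zero_add, sub_self] at h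
  have he : 0 < Real.exp s := Real.exp_pos s
  have h2 := mul_le_mul_of_nonneg_right h he.le
  have e : Real.exp (-s) * Real.exp s = 1 := by rw [← Real.exp_add]; simp
  have h3 : (s ^ 2 / 2 + (1 + s) * Real.exp (-s) - 1) * Real.exp s =
      s ^ 2 / 2 * Real.exp s + (1 + s) * (Real.exp (-s) * Real.exp s) - Real.exp s := by ring
  rw [h3, e] at h2
  linarith

theorem p_ph : P_PH := by
  refine ⟨?_, ?_⟩
  · intro p β hp hβ
    have hp0 : 0 < p := by linarith
    have hb : 0 ≤ β / p := div_nonneg hβ hp0.le
    have h1 : (1 + β / p) ^ (p / 2) ≤ Real.exp (β / 2) := by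
      have h2 : 1 + β / p ≤ Real.exp (β / p) := by
        have := Real.add_one_le_exp (β / p)
        linarith
      have h3 := Real.rpow_le_rpow (by linarith) h2 (show 0 ≤ p / 2 by linarith)
      rw [← Real.exp_mul] at h3
      have e : β / p * (p / 2) = β / 2 := by field_simp
      rwa [e] at h3
    have e2 : ph (p / 2) (1 + β / p) = (1 + β / p) ^ (p / 2) - 1 - β / 2 := by
      unfold ph
      have : p / 2 * (1 + β / p - 1) = β / 2 := by field_simp; ring
      rw [this]
    rw [e2]
    refine ⟨by linarith, ?_⟩
    have h4 := exp_sub (s := β / 2) (by linarith)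
    have e3 : (β / 2) ^ 2 / 2 = β ^ 2 / 8 := by ring
    rw [e3] at h4
    linarith
  · intro p a hp ha0 ha1
    set r := p / 2 with hr
    have hr2 : 2 ≤ r := by rw [hr]; linarith
    have hpr : p / 4 = r / 2 := by rw [hr]; ring
    refine ⟨?_, ?_⟩
    · have h1 : a ^ r ≤ a := by
        have := Real.rpow_le_rpow_of_exponent_ge' ha0 ha1 (show (0 : ℝ) ≤ 1 by norm_num)
          (show (1 : ℝ) ≤ r by linarith)
        rwa [Real.rpow_one] at this
      unfold ph
      nlinarith
    · rw [hpr]
      have hanti : AntitoneOn (fun a : ℝ => (r - 1) * (r / 2 * (1 - a) ^ 2) - ph r a)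
          (Set.Icc 0 1) := by
        have hd : ∀ x : ℝ, HasDerivAt (fun a : ℝ => (r - 1) * (r / 2 * (1 - a) ^ 2) - ph r a)
            (r * ((1 - x ^ (r - 1)) - (r - 1) * (1 - x))) x := by
          intro x
          have h1 : HasDerivAt (fun a : ℝ => 1 - a) (-1) x := by
            simpa using (hasDerivAt_id x).const_sub 1
          have h2 := ((h1.pow 2).const_mul (r / 2)).const_mul (r - 1)
          have h3 : HasDerivAt (fun a : ℝ => a ^ r) (r * x ^ (r - 1)) x :=
            Real.hasDerivAt_rpow_const (Or.inr (by linarith))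
          have h4 : HasDerivAt (fun a : ℝ => r * (a - 1)) (r * 1) x :=
            ((hasDerivAt_id x).sub_const 1).const_mul r
          have h5 := h2.sub ((h3.sub_const 1).sub h4)
          refine HasDerivAt.congr_deriv
            (f := fun a : ℝ => (r - 1) * (r / 2 * (1 - a) ^ 2) - ph r a) h5 ?_
          ring
        apply antitoneOn_of_deriv_nonpos (convex_Icc 0 1)
        · exact fun x _ => (hd x).continuousAt.continuousWithinAt
        · exact fun x _ => (hd x).differentiableAt.differentiableWithinAt
        · intro x hx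
          rw [interior_Icc] at hx
          rw [(hd x).deriv]
          have hb := one_add_mul_self_le_rpow_one_add (s := x - 1) (by linarith [hx.1])
            (show (1 : ℝ) ≤ r - 1 by linarith)
          have e : 1 + (x - 1) = x := by ring
          rw [e] at hb
          have : (1 - x ^ (r - 1)) - (r - 1) * (1 - x) ≤ 0 := by linarith
          exact mul_nonpos_of_nonneg_of_nonpos (by linarith) this
      have h := hanti (Set.mem_Icc.2 ⟨ha0, ha1⟩) (Set.mem_Icc.2 ⟨zero_le_one, le_rfl⟩) ha1
      have e1 : ph r 1 = 0 := by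
        unfold ph
        simp
      simp only [e1] at h
      linarith

end Pool.Agent.W2helper75.SN
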