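import Pool.Agent.LeadSN.Stm

/-!
# Piece WT of project SN: elementary bounds of the weights
-/

set_option autoImplicit false

open scoped BigOperators
open Pool.Agent.Y282.RB

namespace Pool.Agent.W2helper75.SN

open Pool.Agent.LeadSN

theorem p_wt : P_WT := by
  intro σ h0 h1
  refine ⟨?_, ?_, ?_⟩
  · unfold kk
    simp
  · unfold cc
    have e : ((0 : ℕ) : ℝ) ^ 2 + (((0 : ℕ) : ℝ) + σ) ^ 2 / (2 * ((0 : ℕ) : ℝ) + 1) = σ ^ 2 := by
      simp
    rw [e, Real.sqrt_sq h0.le]
  · intro j hj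
    have hx : (1 : ℝ) ≤ (j : ℝ) := by exact_mod_cast hj
    set x : ℝ := (j : ℝ) with hxd
    have hD1 : 0 < x + σ := by linarith
    have hD2 : 0 < x + 1 - σ := by linarith
    have hD : 0 < (x + σ) * (x + 1 - σ) := mul_pos hD1 hD2
    have hs : 0 ≤ σ * (1 - σ) := mul_nonneg h0.le (by linarith)
    have hk : 0 < kk σ j := by
      unfold kk
      exact div_pos (by linarith) hD
    have hc : 0 ≤ cc σ j := Real.sqrt_nonneg _
    have h2x : 0 < 2 * x + 1 := by linarith
    refine ⟨hk, hc, ?_, ?_, ?_⟩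
    · have hcc : cc σ j ≤ 2 * ((x + σ) * (x + 1 - σ)) / (2 * x + 1) := by
        unfold cc
        rw [← hxd]
        apply Real.sqrt_le_iff.2
        refine ⟨by positivity, ?_⟩
        rw [div_pow, ← sub_nonneg]
        have e : (2 * ((x + σ) * (x + 1 - σ))) ^ 2 / (2 * x + 1) ^ 2 -
            (x ^ 2 + (x + σ) ^ 2 / (2 * x + 1)) =
            ((2 * ((x + σ) * (x + 1 - σ))) ^ 2 - (2 * x + 1) *
              (2 * x ^ 3 + 2 * x ^ 2 + 2 * x * σ + σ ^ 2)) / (2 * x + 1) ^ 2 := by
          field_simp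
          ring
        rw [e]
        apply div_nonneg _ (by positivity)
        have e2 : (2 * ((x + σ) * (x + 1 - σ))) ^ 2 - (2 * x + 1) *
              (2 * x ^ 3 + 2 * x ^ 2 + 2 * x * σ + σ ^ 2) =
            2 * x ^ 3 + 2 * x ^ 2 + 2 * x * σ * (1 - σ) + (4 * x * (x + 1) * σ * (1 - 2 * σ)) +
              (4 * (σ * (1 - σ)) ^ 2 - σ ^ 2) := by
          ring
        rw [e2]
        have t1 : 0 ≤ x * (σ * (1 - σ)) := mul_nonneg (by linarith) hs
        have t2 : 0 ≤ x * (x + 1) * σ * (1 - 2 * σ) := by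
          have : 0 ≤ x * (x + 1) * σ := by positivity
          exact mul_nonneg this (by linarith)
        have t3 : σ ^ 2 ≤ 1 / 4 := by nlinarith
        have t4 : 1 ≤ x ^ 2 := by nlinarith
        have t5 : 0 ≤ x ^ 3 := by positivity
        have t6 : 0 ≤ (σ * (1 - σ)) ^ 2 := by positivity
        nlinarith
      have e : kk σ j = (2 * x + 1) / ((x + σ) * (x + 1 - σ)) := rfl
      rw [e]
      calc (2 * x + 1) / ((x + σ) * (x + 1 - σ)) * cc σ j
          ≤ (2 * x + 1) / ((x + σ) * (x + 1 - σ)) *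
            (2 * ((x + σ) * (x + 1 - σ)) / (2 * x + 1)) :=
            mul_le_mul_of_nonneg_left hcc (by positivity)
        _ = 2 := by field_simp
    · unfold cc
      rw [← hxd]
      apply Real.sqrt_le_iff.2
      refine ⟨by linarith, ?_⟩
      have : (x + σ) ^ 2 / (2 * x + 1) ≤ x + 1 / 4 := by
        rw [div_le_iff₀ h2x]
        nlinarith
      nlinarith
    · have e : kk σ j = (2 * x + 1) / ((x + σ) * (x + 1 - σ)) := rfl
      have e2 : 1 / x + 1 / (x + 1) = (2 * x + 1) / (x * (x + 1)) := by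
        field_simp
        ring
      rw [e, e2]
      apply div_le_div_of_nonneg_left h2x.le (by positivity)
      nlinarith

end Pool.Agent.W2helper75.SN
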